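import Pool.Agent.Lib.MP_f4a5b0_an.Dyn

set_option autoImplicit false

namespace Pool.Agent.Variants.MP_f4a5b0_an.SL3Counterexample

open MeasureTheory Filter Topology Matrix
open scoped Pointwise
open Pool.Agent.Lib.MP_f4a5b0_an

/-- The group SL(3, ℝ). -/
abbrev G : Type := Matrix.SpecialLinearGroup (Fin 3) ℝ

/-- The lattice SL(3, ℤ) inside SL(3, ℝ). -/
def Gamma : Subgroup G :=
  (Matrix.SpecialLinearGroup.map (n := Fin 3) (Int.castRingHom ℝ)).range

/-- The exponential map of the diagonal torus A, in the coordinates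
(s, t) ↦ diag (e^s, e^t, e^(-s-t)). -/
noncomputable def expA (Y : ℝ × ℝ) : G :=
  ⟨Matrix.diagonal ![Real.exp Y.1, Real.exp Y.2, Real.exp (-(Y.1 + Y.2))], by
    rw [Matrix.det_diagonal, Fin.prod_univ_three]
    simp [← Real.exp_add]⟩

/-- The orbit D x is divergent: for each compact K the set of d in D with d x in K is compact. -/
def IsDivergent (D : Set G) (x : G ⧸ Gamma) : Prop :=
  ∀ K : Set (G ⧸ Gamma), IsCompact K → IsCompact {d : G | d ∈ D ∧ d • x ∈ K}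

noncomputable def g0 (η1 η2 : ℝ) : G :=
  ⟨!![1, √2, η1; 1, -√2, η2; 0, 0, -1 / (2 * √2)], by
    have := sqrt2_gt
    rw [Matrix.det_fin_three]
    simp
    field_simp
    ring⟩

lemma flow_val (Y : ℝ × ℝ) (η1 η2 : ℝ) : ((expA Y * g0 η1 η2 : G) : Matrix (Fin 3) (Fin 3) ℝ) =
    !![Real.exp Y.1, Real.exp Y.1 * √2, Real.exp Y.1 * η1;
       Real.exp Y.2, -(Real.exp Y.2 * √2), Real.exp Y.2 * η2;
       0, 0, Real.exp (-(Y.1 + Y.2)) * (-1 / (2 * √2))] := by
  rw [Matrix.SpecialLinearGroup.coe_mul]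
  ext i j
  simp only [expA, g0, Matrix.diagonal_mul]
  fin_cases i <;> fin_cases j <;> simp

lemma c0_abs : |(-1 / (2 * √2) : ℝ)| ≤ 1 := by
  have := sqrt2_gt
  rw [abs_div, abs_neg, abs_one, abs_of_pos (by linarith), div_le_one (by linarith)]
  linarith

lemma small_col {R : ℝ} {Y : ℝ × ℝ} {η1 η2 x y n : ℝ} (h : Small R Y.1 Y.2 η1 η2 x y n) (i : Fin 3) :
    |(((expA Y * g0 η1 η2 : G) : Matrix (Fin 3) (Fin 3) ℝ) *ᵥ ![x, y, n]) i| ≤ R := by
  rw [flow_val]
  obtain ⟨h1, h2, h3⟩ := h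
  fin_cases i
  · convert h1 using 2; simp [Matrix.mulVec, dotProduct, Fin.sum_univ_three]; ring
  · convert h2 using 2; simp [Matrix.mulVec, dotProduct, Fin.sum_univ_three]; ring
  · have e : (!![Real.exp Y.1, Real.exp Y.1 * √2, Real.exp Y.1 * η1;
       Real.exp Y.2, -(Real.exp Y.2 * √2), Real.exp Y.2 * η2;
       0, 0, Real.exp (-(Y.1 + Y.2)) * (-1 / (2 * √2))] *ᵥ ![x, y, n]) 2 =
        (-1 / (2 * √2)) * (Real.exp (-(Y.1 + Y.2)) * n) := by
      simp [Matrix.mulVec, dotProduct, Fin.sum_univ_three]; ring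
    show |(!![Real.exp Y.1, Real.exp Y.1 * √2, Real.exp Y.1 * η1;
       Real.exp Y.2, -(Real.exp Y.2 * √2), Real.exp Y.2 * η2;
       0, 0, Real.exp (-(Y.1 + Y.2)) * (-1 / (2 * √2))] *ᵥ ![x, y, n]) 2| ≤ R
    rw [e, abs_mul]
    have := c0_abs
    nlinarith [abs_nonneg (Real.exp (-(Y.1 + Y.2)) * n), abs_nonneg (-1 / (2 * √2) : ℝ)]

lemma small_neg {R a1 a2 η1 η2 x y n : ℝ} (h : Small R a1 a2 η1 η2 x y n) :
    Small R a1 a2 η1 η2 (-x) (-y) (-n) := by
  obtain ⟨h1, h2, h3⟩ := h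
  refine ⟨?_, ?_, ?_⟩
  · rw [← abs_neg]; convert h1 using 2; ring
  · rw [← abs_neg]; convert h2 using 2; ring
  · rw [← abs_neg]; convert h3 using 2; ring

def box (R : ℝ) : Set G := {g | ∀ i j, |g.1 i j| ≤ R}

lemma isCompact_box (R : ℝ) : IsCompact (box R) := by
  have h : IsCompact {M : Matrix (Fin 3) (Fin 3) ℝ | ∀ i j, |M i j| ≤ R} := by
    have : {M : Matrix (Fin 3) (Fin 3) ℝ | ∀ i j, |M i j| ≤ R} =
        Set.pi Set.univ (fun _ => Set.pi Set.univ (fun _ => Set.Icc (-R) R)) := by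
      ext M
      exact ⟨fun h i _ j _ => abs_le.mp (h i j), fun h i j => abs_le.mpr (h i trivial j trivial)⟩
    rw [this]
    exact isCompact_univ_pi fun _ => isCompact_univ_pi fun _ => isCompact_Icc
  exact Matrix.SpecialLinearGroup.isClosedEmbedding_val.isCompact_preimage h

lemma mem_of_good {R : ℝ} {Y : ℝ × ℝ} {η1 η2 : ℝ} (h : Good R Y.1 Y.2 η1 η2) :
    expA Y • ((g0 η1 η2 : G) : G ⧸ Gamma) ∈ ((↑) : G → G ⧸ Gamma) '' box R := by
  have key : ∀ x1 y1 n1 x2 y2 n2 x3 y3 n3 : ℤ, det3 x1 y1 n1 x2 y2 n2 x3 y3 n3 = 1 →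
      Small R Y.1 Y.2 η1 η2 x1 y1 n1 → Small R Y.1 Y.2 η1 η2 x2 y2 n2 →
      Small R Y.1 Y.2 η1 η2 x3 y3 n3 →
      expA Y • ((g0 η1 η2 : G) : G ⧸ Gamma) ∈ ((↑) : G → G ⧸ Gamma) '' box R := by
    intro x1 y1 n1 x2 y2 n2 x3 y3 n3 hd h1 h2 h3
    let γ : Matrix.SpecialLinearGroup (Fin 3) ℤ := ⟨!![x1, x2, x3; y1, y2, y3; n1, n2, n3], by
      rw [Matrix.det_fin_three]; unfold det3 at hd; simp; linear_combination hd⟩
    refine ⟨expA Y * g0 η1 η2 * Matrix.SpecialLinearGroup.map (Int.castRingHom ℝ) γ, ?_, ?_⟩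
    · intro i j
      rw [Matrix.SpecialLinearGroup.coe_mul]
      fin_cases j
      · convert small_col h1 i using 2
        simp [γ, Matrix.mul_apply, Matrix.mulVec, dotProduct, Fin.sum_univ_three]
      · convert small_col h2 i using 2
        simp [γ, Matrix.mul_apply, Matrix.mulVec, dotProduct, Fin.sum_univ_three]
      · convert small_col h3 i using 2
        simp [γ, Matrix.mul_apply, Matrix.mulVec, dotProduct, Fin.sum_univ_three]
    · rw [MulAction.Quotient.smul_coe, smul_eq_mul]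
      exact QuotientGroup.mk_mul_of_mem _ ⟨γ, rfl⟩
  obtain ⟨x1, y1, n1, x2, y2, n2, x3, y3, n3, hd | hd, h1, h2, h3⟩ := h
  · exact key _ _ _ _ _ _ _ _ _ hd h1 h2 h3
  · refine key x1 y1 n1 x2 y2 n2 (-x3) (-y3) (-n3) ?_ h1 h2 (by simpa using small_neg h3)
    unfold det3 at hd ⊢; linear_combination -hd

lemma exists_one_le (z : Fin 3 → ℤ) (hz : z ≠ 0) : ∃ i, (1 : ℝ) ≤ |(z i : ℝ)| := by
  obtain ⟨i, hi⟩ := Function.ne_iff.mp hz
  exact ⟨i, by exact_mod_cast Int.one_le_abs hi⟩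

lemma vec_ne {x y n : ℤ} (h : ¬(x = 0 ∧ y = 0 ∧ n = 0)) : (![x, y, n] : Fin 3 → ℤ) ≠ 0 := by
  intro h0
  exact h ⟨congrFun h0 0, congrFun h0 1, congrFun h0 2⟩

lemma sum_bound (u v : Fin 3 → ℝ) (R δ : ℝ) (hu : ∀ i, |u i| ≤ R) (hv : ∀ i, |v i| ≤ δ) :
    |u ⬝ᵥ v| ≤ 3 * (R * δ) := by
  have key : ∀ i, |u i * v i| ≤ R * δ := fun i => by
    rw [abs_mul]
    exact mul_le_mul (hu i) (hv i) (abs_nonneg _) ((abs_nonneg _).trans (hu i))
  simp only [dotProduct, Fin.sum_univ_three]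
  have h0 := abs_le.mp (key 0)
  have h1 := abs_le.mp (key 1)
  have h2 := abs_le.mp (key 2)
  rw [abs_le]; constructor <;> linarith [h0.1, h0.2, h1.1, h1.2, h2.1, h2.2]

lemma not_short (K : Set (G ⧸ Gamma)) (hK : IsCompact K) (η1 η2 : ℝ) :
    ∃ δ : ℝ, 0 < δ ∧ ∀ Y : ℝ × ℝ, expA Y • ((g0 η1 η2 : G) : G ⧸ Gamma) ∈ K →
      ¬(ShortP δ Y.1 Y.2 η1 η2 ∨ ShortD δ Y.1 Y.2 η1 η2) := by
  let V : ℕ → Set G := fun R => {g | ∀ i j, |g.1 i j| < R ∧ |(g⁻¹).1 i j| < R}
  have hVo : ∀ R, IsOpen (V R) := by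
    intro R
    simp only [V, Set.ofPred_forall]
    refine isOpen_iInter_of_finite fun i => isOpen_iInter_of_finite fun j => ?_
    have c1 : Continuous fun g : G => g.1 i j := by fun_prop
    have c2 : Continuous fun g : G => (g⁻¹).1 i j := c1.comp continuous_inv
    exact (isOpen_lt c1.abs continuous_const).inter (isOpen_lt c2.abs continuous_const)
  have hVm : Monotone V := by
    intro R R' h g hg i j
    have : (R : ℝ) ≤ R' := by exact_mod_cast h
    exact ⟨(hg i j).1.trans_le this, (hg i j).2.trans_le this⟩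
  obtain ⟨R, hR⟩ := hK.elim_directed_cover (fun R : ℕ => ((↑) : G → G ⧸ Gamma) '' V R)
    (fun R => QuotientGroup.isOpenMap_coe _ (hVo R)) (by
      intro x _
      obtain ⟨g, rfl⟩ := QuotientGroup.mk_surjective x
      obtain ⟨R, hR⟩ := exists_nat_gt (∑ i, ∑ j, (|g.1 i j| + |(g⁻¹).1 i j|))
      refine Set.mem_iUnion.mpr ⟨R, g, fun i j => ?_, rfl⟩
      have h1 : |g.1 i j| + |(g⁻¹).1 i j| ≤ ∑ j, (|g.1 i j| + |(g⁻¹).1 i j|) :=
        Finset.single_le_sum (f := fun j => |g.1 i j| + |(g⁻¹).1 i j|)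
          (fun _ _ => by positivity) (Finset.mem_univ j)
      have h2 : ∑ j, (|g.1 i j| + |(g⁻¹).1 i j|) ≤ ∑ i, ∑ j, (|g.1 i j| + |(g⁻¹).1 i j|) :=
        Finset.single_le_sum (f := fun i => ∑ j, (|g.1 i j| + |(g⁻¹).1 i j|))
          (fun _ _ => by positivity) (Finset.mem_univ i)
      constructor <;> linarith [abs_nonneg (g.1 i j), abs_nonneg ((g⁻¹).1 i j)])
    (Monotone.directed_le fun R R' h => Set.image_mono (hVm h))
  have hR0 : (0 : ℝ) ≤ R := Nat.cast_nonneg R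
  refine ⟨1 / (10 * (R + 1)), by positivity, fun Y hY => ?_⟩
  have hδ : 9 * (R * (1 / (10 * ((R : ℝ) + 1)))) < 1 := by
    rw [mul_one_div, ← mul_div_assoc, div_lt_one (by positivity)]; linarith
  have hδ0 : 0 ≤ (R * (1 / (10 * ((R : ℝ) + 1)))) := by positivity
  obtain ⟨h, hh, he⟩ := hR hY
  rw [MulAction.Quotient.smul_coe, smul_eq_mul, QuotientGroup.eq] at he
  obtain ⟨γ, hγ⟩ := he
  have hcast : ∀ (γ : Matrix.SpecialLinearGroup (Fin 3) ℤ) (i j : Fin 3),
      (Matrix.SpecialLinearGroup.map (Int.castRingHom ℝ) γ).1 i j = (γ.1 i j : ℝ) := by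
    intro γ i j; simp
  rintro (⟨x, y, n, hz, hs⟩ | ⟨x, y, n, ω1, ω2, ω3, hz, h1, h2, h3, e1, e2, e3⟩)
  · have hne : γ.1 *ᵥ ![x, y, n] ≠ 0 := by
      intro h0
      apply vec_ne hz
      have := congrArg (fun v => (γ⁻¹).1 *ᵥ v) h0
      simp only [Matrix.mulVec_mulVec, ← Matrix.SpecialLinearGroup.coe_mul, inv_mul_cancel] at this
      simpa using this
    obtain ⟨i, hi⟩ := exists_one_le _ hne
    have e : (((γ.1 *ᵥ ![x, y, n]) i : ℤ) : ℝ) =
        (h⁻¹).1 i ⬝ᵥ ((expA Y * g0 η1 η2 : G).1 *ᵥ ![(x : ℝ), y, n]) := by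
      have : (h⁻¹).1 i ⬝ᵥ ((expA Y * g0 η1 η2 : G).1 *ᵥ ![(x : ℝ), y, n]) =
          ((h⁻¹ * (expA Y * g0 η1 η2) : G).1 *ᵥ ![(x : ℝ), y, n]) i := by
        rw [Matrix.SpecialLinearGroup.coe_mul h⁻¹, ← Matrix.mulVec_mulVec]; rfl
      rw [this, ← hγ]
      simp [Matrix.mulVec, dotProduct, Fin.sum_univ_three]
    rw [e] at hi
    have := sum_bound _ _ R _ (fun j => (hh i j).2.le) (small_col hs)
    linarith
  · have hne : ![x, y, n] ᵥ* (γ⁻¹).1 ≠ 0 := by
      intro h0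
      apply vec_ne hz
      have := congrArg (fun v => v ᵥ* γ.1) h0
      simp only [Matrix.vecMul_vecMul, ← Matrix.SpecialLinearGroup.coe_mul, inv_mul_cancel] at this
      simpa using this
    obtain ⟨i, hi⟩ := exists_one_le _ hne
    have hs := sqrt2_gt
    have hs' := sqrt2_lt
    have e0 : ![ω1, ω2, -(2 * √2) * ω3] ᵥ* (expA Y * g0 η1 η2 : G).1 = ![(x : ℝ), y, n] := by
      rw [flow_val]
      ext j
      fin_cases j
      · simp [Matrix.vecMul, dotProduct, Fin.sum_univ_three]; linarith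
      · simp [Matrix.vecMul, dotProduct, Fin.sum_univ_three]; linarith
      · simp [Matrix.vecMul, dotProduct, Fin.sum_univ_three]
        rw [← e3, neg_add_rev]; field_simp
    have hh' : h = expA Y * g0 η1 η2 * Matrix.SpecialLinearGroup.map (Int.castRingHom ℝ) γ⁻¹ := by
      rw [map_inv, hγ]; group
    have e : (((![x, y, n] ᵥ* (γ⁻¹).1) i : ℤ) : ℝ) =
        (fun j => h.1 j i) ⬝ᵥ ![ω1, ω2, -(2 * √2) * ω3] := by
      have : (fun j => h.1 j i) ⬝ᵥ ![ω1, ω2, -(2 * √2) * ω3] =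
          (![ω1, ω2, -(2 * √2) * ω3] ᵥ* h.1) i := by
        rw [dotProduct_comm]; rfl
      rw [this, hh', Matrix.SpecialLinearGroup.coe_mul (expA Y * g0 η1 η2), ← Matrix.vecMul_vecMul,
        e0]
      simp only [Matrix.vecMul, dotProduct, Fin.sum_univ_three, hcast]
      simp
    rw [e] at hi
    have hδ1 : 0 ≤ 1 / (10 * ((R : ℝ) + 1)) := by positivity
    have := sum_bound (fun j => h.1 j i) ![ω1, ω2, -(2 * √2) * ω3] R (3 * (1 / (10 * ((R : ℝ) + 1))))
      (fun j => (hh j i).1.le) (by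
        intro j
        fin_cases j
        · simp only [Fin.zero_eta, Matrix.cons_val_zero]; linarith
        · simp only [Fin.mk_one, Matrix.cons_val_one, Matrix.cons_val_zero]; linarith
        · show |-(2 * √2) * ω3| ≤ _
          rw [abs_mul, abs_neg, abs_of_pos (by linarith)]
          nlinarith [abs_nonneg ω3])
    linarith

lemma abs_le_trace (a b : ℝ) : |a| + |b| ≤ 2 * (Real.exp a + Real.exp b + Real.exp (-(a + b))) := by
  have h1 := Real.add_one_le_exp a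
  have h2 := Real.add_one_le_exp b
  have h3 := Real.add_one_le_exp (-(a + b))
  have h4 := Real.exp_pos a
  have h5 := Real.exp_pos b
  have h6 := Real.exp_pos (-(a + b))
  have h7 : |a| ≤ Real.exp a + Real.exp b + Real.exp (-(a + b)) := by
    rw [abs_le]; constructor <;> linarith
  have h8 : |b| ≤ Real.exp a + Real.exp b + Real.exp (-(a + b)) := by
    rw [abs_le]; constructor <;> linarith
  linarith

/-- A point of SL(3, ℝ) / SL(3, ℤ) none of whose one-parameter diagonal orbits is divergent,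
but whose orbit under the full diagonal group spends a zero proportion of time in every
compact set. -/
theorem result : ∃ x : G ⧸ Gamma,
    (∀ Y : ℝ × ℝ, Y ≠ 0 → ¬IsDivergent (Set.range fun t : ℝ => expA (t • Y)) x) ∧
    ∀ K : Set (G ⧸ Gamma), IsCompact K →
      ∀ B : Set (ℝ × ℝ), Bornology.IsBounded B → 0 < volume B →
        Tendsto (fun T : ℝ => volume {Y : ℝ × ℝ | Y ∈ T • B ∧ expA Y • x ∈ K} / volume (T • B))
          atTop (𝓝 0) := by
  obtain ⟨η1, H1⟩ := exists_eta1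
  obtain ⟨η2, H2⟩ := exists_eta2
  refine ⟨((g0 η1 η2 : G) : G ⧸ Gamma), ?_, ?_⟩
  · intro Y hY hdiv
    have hc := hdiv _ ((isCompact_box 24).image QuotientGroup.continuous_mk)
    have hcont : Continuous fun g : G => g.1 0 0 + g.1 1 1 + g.1 2 2 := by fun_prop
    obtain ⟨M, hM⟩ := hc.bddAbove_image hcont.continuousOn
    have hpos : 0 < |Y.1| + |Y.2| := by
      by_contra hcon
      apply hY
      have h1 := abs_nonneg Y.1
      have h2 := abs_nonneg Y.2
      exact Prod.ext (abs_eq_zero.mp (by linarith)) (abs_eq_zero.mp (by linarith))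
    obtain ⟨τ, hτ, hg⟩ := good_unbounded H1 H2 Y.1 Y.2 (2 * M / (|Y.1| + |Y.2|))
    have hmem := mem_of_good (Y := τ • Y) hg
    have := hM ⟨expA (τ • Y), ⟨⟨τ, rfl⟩, hmem⟩, rfl⟩
    have e : (expA (τ • Y)).1 0 0 + (expA (τ • Y)).1 1 1 + (expA (τ • Y)).1 2 2 =
        Real.exp (τ * Y.1) + Real.exp (τ * Y.2) + Real.exp (-(τ * Y.1 + τ * Y.2)) := by
      simp [expA]
    simp only at this
    rw [e] at this
    have h2 := abs_le_trace (τ * Y.1) (τ * Y.2)
    rw [abs_mul, abs_mul] at h2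
    rw [div_lt_iff₀ hpos] at hτ
    linarith
  · intro K hK B hB hv
    obtain ⟨δ, hδ, hns⟩ := not_short K hK η1 η2
    obtain ⟨ρ, hρ0, hρ⟩ := hB.subset_closedBall_lt 0 0
    rw [ENNReal.tendsto_nhds_zero]
    intro ε hε
    obtain ⟨r, hr0, hr1, hr2⟩ := ENNReal.lt_iff_exists_real_btwn.mp (ENNReal.mul_pos hε.ne' hv.ne')
    have hr : 0 < r := ENNReal.ofReal_pos.mp hr1
    obtain ⟨T0, hT0⟩ := bad_small H1 H2 δ (r / ρ ^ 2) hδ (by positivity)
    filter_upwards [eventually_ge_atTop (T0 / ρ), eventually_gt_atTop 0] with T hT hT'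
    rw [div_le_iff₀ hρ0] at hT
    apply ENNReal.div_le_of_le_mul
    refine le_trans (measure_mono ?_) ((hT0 (T * ρ) hT).trans ?_)
    · rintro Y ⟨⟨b, hb, rfl⟩, hY⟩
      have hb' := hρ hb
      rw [mem_closedBall_zero_iff] at hb'
      have hb1 : |b.1| ≤ ρ := (norm_fst_le b).trans hb'
      have hb2 : |b.2| ≤ ρ := (norm_snd_le b).trans hb'
      refine ⟨?_, ?_, hns _ hY⟩
      · show |T * b.1| ≤ _
        rw [abs_mul, abs_of_pos hT']; gcongr
      · show |T * b.2| ≤ _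
        rw [abs_mul, abs_of_pos hT']; gcongr
    · rw [Measure.addHaar_smul]
      have e1 : r / ρ ^ 2 * (T * ρ) ^ 2 = r * T ^ 2 := by field_simp
      have e2 : Module.finrank ℝ (ℝ × ℝ) = 2 := by simp
      rw [e1, e2, abs_of_pos (by positivity), ENNReal.ofReal_mul hr0, mul_comm _ (volume B),
        ← mul_assoc]
      gcongr

end Pool.Agent.Variants.MP_f4a5b0_an.SL3Counterexample
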